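import Mathlib

set_option autoImplicit false

namespace Pool.Agent.Results.MP_73a625_co.AllInfinite

open Filter Set

/-- A cross-cut of a partially ordered set `P`: a maximal antichain `C` such that whenever
`x < x' ∈ C`, `y > y' ∈ C` and `x ≤ y`, there is `z ∈ C` with `x ≤ z ≤ y`. -/
def IsCrossCut {P : Type*} [PartialOrder P] (C : Set P) : Prop :=
  IsMaxAntichain (· ≤ ·) C ∧
    ∀ x x' y y' : P, x < x' → x' ∈ C → y' < y → y' ∈ C → x ≤ y → ∃ z ∈ C, x ≤ z ∧ z ≤ y

/-- The dual of a family of subsets of `X`: the family of the complements of its members. -/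
def dualFamily {X : Type*} (C : Set (Set X)) : Set (Set X) := {B | ∃ A ∈ C, B = Aᶜ}

/-- `C` is trivial if for some finite `k` either `C` or its dual is the family of all
`k`-element subsets of `X`. -/
def IsTrivial {X : Type*} (C : Set (Set X)) : Prop :=
  ∃ k : ℕ, C = {A | A.encard = (k : ℕ∞)} ∨ dualFamily C = {A | A.encard = (k : ℕ∞)}

universe u

section ladders

/-- `δ` is the supremum of a nondecreasing sequence of smaller ordinals. -/
def HasLad (δ : Ordinal.{u}) : Prop :=
  ∃ s : ℕ → Ordinal.{u}, Monotone s ∧ (∀ m, s m < δ) ∧ ∀ α < δ, ∃ m, α < s m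

open Classical in
/-- a fixed sequence with supremum `δ` -/
noncomputable def lad (δ : Ordinal.{u}) : ℕ → Ordinal.{u} :=
  if h : HasLad δ then h.choose else fun _ => 0

theorem lad_mono {δ : Ordinal.{u}} (h : HasLad δ) : Monotone (lad δ) := by
  rw [lad, dif_pos h]
  exact h.choose_spec.1

theorem lad_lt {δ : Ordinal.{u}} (h : HasLad δ) (m : ℕ) : lad δ m < δ := by
  rw [lad, dif_pos h]
  exact h.choose_spec.2.1 m

theorem lad_cofinal {δ : Ordinal.{u}} (h : HasLad δ) {α : Ordinal.{u}} (ha : α < δ) :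
    ∃ m, α < lad δ m := by
  rw [lad, dif_pos h]
  exact h.choose_spec.2.2 α ha

theorem lad_eventually {δ : Ordinal.{u}} (h : HasLad δ) {α : Ordinal.{u}} (ha : α < δ) :
    ∀ᶠ m in atTop, α < lad δ m := by
  obtain ⟨m, hm⟩ := lad_cofinal h ha
  filter_upwards [eventually_ge_atTop m] with k hk
  exact hm.trans_le (lad_mono h hk)

theorem first {S : Set Ordinal.{u}} (hS : S.Infinite) (hb : BddAbove S) :
    ∃ δ, (S ∩ Iio δ).Infinite ∧ ∀ α < δ, (S ∩ Iio α).Finite := by
  have hne : {δ | (S ∩ Iio δ).Infinite}.Nonempty := by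
    obtain ⟨b, hb⟩ := hb
    refine ⟨Order.succ b, ?_⟩
    have : S ∩ Iio (Order.succ b) = S := by
      apply inter_eq_left.2
      intro x hx
      exact Order.lt_succ_of_le (hb hx)
    simp only [mem_ofPred_eq, this]
    exact hS
  refine ⟨sInf {δ | (S ∩ Iio δ).Infinite}, csInf_mem hne, fun α hα => ?_⟩
  by_contra h
  exact absurd (csInf_le' (show α ∈ {δ | (S ∩ Iio δ).Infinite} from h)) (not_le.2 hα)

theorem first_spec {S : Set Ordinal.{u}} {δ : Ordinal.{u}} (h1 : (S ∩ Iio δ).Infinite)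
    (h2 : ∀ α < δ, (S ∩ Iio α).Finite) :
    δ ≠ 0 ∧ (∀ α < δ, ∃ β ∈ S, α < β ∧ β < δ) ∧ HasLad δ := by
  have h0 : δ ≠ 0 := by
    rintro rfl
    apply h1
    convert Set.finite_empty
    ext x
    simp
  refine ⟨h0, ?_, ?_⟩
  · intro α hα
    have h3 : ((S ∩ Iio α) ∪ {α}).Finite := (h2 α hα).union (finite_singleton α)
    obtain ⟨β, ⟨hβ, hβ'⟩, hn⟩ := h1.exists_notMem_finite h3
    refine ⟨β, hβ, ?_, hβ'⟩
    by_contra h
    rcases (not_lt.1 h).lt_or_eq with h | h
    · exact hn (Or.inl ⟨hβ, h⟩)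
    · exact hn (Or.inr h)
  · let g := h1.natEmbedding
    refine ⟨fun m => (Finset.range (m + 1)).sup (fun i => (g i).1), ?_, ?_, ?_⟩
    · intro a b hab
      exact Finset.sup_mono (Finset.range_mono (by omega))
    · intro m
      rw [Finset.sup_lt_iff]
      · intro b _
        exact (g b).2.2
      · exact pos_iff_ne_zero.2 h0
    · intro α hα
      have h3 : ((S ∩ Iio α) ∪ {α}).Finite := (h2 α hα).union (finite_singleton α)
      have h4 : (range (fun i => (g i).1)).Infinite :=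
        infinite_range_of_injective (fun i j h => g.injective (Subtype.ext h))
      obtain ⟨β, ⟨m, rfl⟩, hn⟩ := h4.exists_notMem_finite h3
      refine ⟨m, ?_⟩
      have h5 : α < (g m).1 := by
        by_contra h
        rcases (not_lt.1 h).lt_or_eq with h | h
        · exact hn (Or.inl ⟨(g m).2.1, h⟩)
        · exact hn (Or.inr h)
      exact h5.trans_le (Finset.le_sup (f := fun i => (g i).1) (Finset.mem_range.2 (by omega)))

end ladders

section main

variable {X : Type u} (f : X → Ordinal.{u})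

/-- the accumulation points of `A` -/
def acc (A : Set X) : Set Ordinal.{u} := {δ | δ ≠ 0 ∧ ∀ α < δ, ∃ x ∈ A, α < f x ∧ f x < δ}

/-- the `m`-th finite part of `A` -/
def cut (A : Set X) (m : ℕ) : Set X := {x | x ∈ A ∧ ∀ δ ∈ acc f A, f x < δ → f x < lad δ m}

/-- the independent sets -/
def Ind (A : Set X) : Prop := (acc f A).Finite ∧ ∀ᶠ m : ℕ in atTop, (cut f A m).encard ≤ m

variable {f}

theorem acc_mono {A B : Set X} (h : A ⊆ B) : acc f A ⊆ acc f B := by
  rintro δ ⟨h0, hδ⟩
  refine ⟨h0, fun α hα => ?_⟩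
  obtain ⟨x, hx, hx'⟩ := hδ α hα
  exact ⟨x, h hx, hx'⟩

theorem acc_insert (A : Set X) (p : X) : acc f (insert p A) = acc f A := by
  apply Subset.antisymm
  · rintro δ ⟨h0, hδ⟩
    refine ⟨h0, fun α hα => ?_⟩
    by_cases hp : f p < δ
    · obtain ⟨x, hx, h1, h2⟩ := hδ (max α (f p)) (max_lt hα hp)
      rcases hx with rfl | hx
      · exact absurd h1 (not_lt.2 (le_max_right _ _))
      · exact ⟨x, hx, (le_max_left _ _).trans_lt h1, h2⟩
    · obtain ⟨x, hx, h1, h2⟩ := hδ α hα
      rcases hx with rfl | hx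
      · exact absurd h2 hp
      · exact ⟨x, hx, h1, h2⟩
  · exact acc_mono (subset_insert _ _)

theorem acc_bdd (A : Set X) : BddAbove (acc f A) := by
  obtain ⟨b, hb⟩ : BddAbove (range f) := Ordinal.bddAbove_of_small
  refine ⟨Order.succ b, ?_⟩
  rintro δ ⟨h0, hδ⟩
  by_contra h
  obtain ⟨x, _, h1, _⟩ := hδ _ (not_le.1 h)
  exact absurd ((hb (mem_range_self x)).trans_lt (Order.lt_succ b)) (not_lt.2 h1.le)

theorem image_bdd (A : Set X) : BddAbove (f '' A) :=
  (Ordinal.bddAbove_of_small (s := range f)).mono (image_subset_range f A)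

theorem hasLad_of_mem_acc {A : Set X} (hA : (acc f A).Finite) {δ : Ordinal.{u}}
    (hδ : δ ∈ acc f A) : HasLad δ := by
  obtain ⟨γ, hγ, hγ'⟩ : ∃ γ < δ, ∀ δ' ∈ acc f A, δ' < δ → δ' ≤ γ := by
    have h1 : (acc f A ∩ Iio δ).Finite := hA.subset inter_subset_left
    rcases (acc f A ∩ Iio δ).eq_empty_or_nonempty with h | h
    · refine ⟨0, pos_iff_ne_zero.2 hδ.1, fun δ' h2 h3 => ?_⟩
      exact absurd (show δ' ∈ acc f A ∩ Iio δ from ⟨h2, h3⟩) (by rw [h]; exact notMem_empty _)
    · obtain ⟨γ, hγ, hmax⟩ := h1.exists_maximal h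
      refine ⟨γ, hγ.2, fun δ' h2 h3 => ?_⟩
      by_contra h4
      exact h4 (hmax ⟨h2, h3⟩ (not_le.1 h4).le)
  let S : Set Ordinal.{u} := f '' A ∩ Ioo γ δ
  have hS : S.Infinite := by
    intro hfin
    have hne : S.Nonempty := by
      obtain ⟨x, hx, h1, h2⟩ := hδ.2 γ hγ
      exact ⟨f x, ⟨x, hx, rfl⟩, h1, h2⟩
    obtain ⟨β, hβ, hmax⟩ := hfin.exists_maximal hne
    obtain ⟨x, hx, h1, h2⟩ := hδ.2 β hβ.2.2
    exact absurd (hmax ⟨⟨x, hx, rfl⟩, hβ.2.1.trans h1, h2⟩ h1.le) (not_le.2 h1)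
  have hSb : BddAbove S := ⟨δ, fun β hβ => hβ.2.2.le⟩
  obtain ⟨δ', h1, h2⟩ := first hS hSb
  obtain ⟨h3, h4, h5⟩ := first_spec h1 h2
  have h6 : δ' ≤ δ := by
    by_contra h
    apply hS
    refine (h2 δ (not_le.1 h)).subset (fun β hβ => ⟨hβ, hβ.2.2⟩)
  have h7 : δ' ∈ acc f A := by
    refine ⟨h3, fun α hα => ?_⟩
    obtain ⟨β, hβ, h8, h9⟩ := h4 α hα
    obtain ⟨x, hx, rfl⟩ := hβ.1
    exact ⟨x, hx, h8, h9⟩
  have h8 : γ < δ' := by
    obtain ⟨β, hβ, _, h9⟩ := h4 0 (pos_iff_ne_zero.2 h3)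
    exact hβ.2.1.trans h9
  rcases h6.lt_or_eq with h | h
  · exact absurd (hγ' δ' h7 h) (not_le.2 h8)
  · rw [← h]
    exact h5

theorem cut_subset (A : Set X) (m : ℕ) : cut f A m ⊆ A := fun _ h => h.1

theorem cut_finite (hf : Function.Injective f) (A : Set X) (m : ℕ) :
    (cut f A m).Finite := by
  by_contra h
  have h1 : (f '' cut f A m).Infinite := (Set.infinite_image_iff hf.injOn).2 h
  obtain ⟨δ, h2, h3⟩ := first h1 (image_bdd _)
  obtain ⟨h4, h5, h6⟩ := first_spec h2 h3
  have h7 : δ ∈ acc f A := by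
    refine ⟨h4, fun α hα => ?_⟩
    obtain ⟨β, ⟨x, hx, rfl⟩, h8, h9⟩ := h5 α hα
    exact ⟨x, hx.1, h8, h9⟩
  obtain ⟨β, ⟨x, hx, rfl⟩, h8, h9⟩ := h5 _ (lad_lt h6 m)
  exact absurd (hx.2 δ h7 h9) (not_lt.2 h8.le)

theorem cut_mono {A : Set X} (hA : (acc f A).Finite) : Monotone (cut f A) := by
  intro m n hmn x hx
  refine ⟨hx.1, fun δ hδ h => (hx.2 δ hδ h).trans_le (lad_mono (hasLad_of_mem_acc hA hδ) hmn)⟩

theorem mem_cut_eventually {A : Set X} (hA : (acc f A).Finite) {x : X} (hx : x ∈ A) :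
    ∀ᶠ m in atTop, x ∈ cut f A m := by
  have : ∀ᶠ m in atTop, ∀ δ ∈ acc f A, f x < δ → f x < lad δ m := by
    rw [Filter.eventually_all_finite hA]
    intro δ hδ
    by_cases h : f x < δ
    · filter_upwards [lad_eventually (hasLad_of_mem_acc hA hδ) h] with m hm _
      exact hm
    · exact Filter.Eventually.of_forall (fun m h' => absurd h' h)
  filter_upwards [this] with m hm
  exact ⟨hx, hm⟩

theorem cut_compat {A B : Set X} (h : A ⊆ B) (hB : (acc f B).Finite) :
    ∀ᶠ m in atTop, cut f A m = A ∩ cut f B m := by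
  have : ∀ᶠ m in atTop, ∀ δ ∈ acc f B, δ ∉ acc f A → ∀ x ∈ A, f x < δ → f x < lad δ m := by
    rw [Filter.eventually_all_finite hB]
    intro δ hδ
    by_cases hA : δ ∈ acc f A
    · exact Filter.Eventually.of_forall (fun m h' => absurd hA h')
    · have h1 : ∃ α < δ, ∀ x ∈ A, ¬ (α < f x ∧ f x < δ) := by
        by_contra h2
        push Not at h2
        exact hA ⟨hδ.1, h2⟩
      obtain ⟨α, hα, h2⟩ := h1
      filter_upwards [lad_eventually (hasLad_of_mem_acc hB hδ) hα] with m hm _ x hx hxδ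
      by_contra h3
      exact h2 x hx ⟨hm.trans_le (not_lt.1 h3), hxδ⟩
  filter_upwards [this] with m hm
  apply Subset.antisymm
  · intro x hx
    refine ⟨hx.1, h hx.1, fun δ hδ hxδ => ?_⟩
    by_cases hA : δ ∈ acc f A
    · exact hx.2 δ hA hxδ
    · exact hm δ hδ hA x hx.1 hxδ
  · intro x hx
    exact ⟨hx.1, fun δ hδ => hx.2.2 δ (acc_mono h hδ)⟩

theorem ind_iff {A B : Set X} (h : A ⊆ B) (hB : (acc f B).Finite) :
    Ind f A ↔ ∀ᶠ m : ℕ in atTop, (A ∩ cut f B m).encard ≤ m := by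
  constructor
  · rintro ⟨_, h2⟩
    filter_upwards [h2, cut_compat h hB] with m h3 h4
    rwa [← h4]
  · intro h2
    refine ⟨hB.subset (acc_mono h), ?_⟩
    filter_upwards [h2, cut_compat h hB] with m h3 h4
    rwa [h4]

theorem Ind.mono {A B : Set X} (hB : Ind f B) (h : A ⊆ B) : Ind f A := by
  rw [ind_iff h hB.1]
  filter_upwards [hB.2] with m hm
  exact (encard_le_encard inter_subset_right).trans hm

theorem ind_insert {A : Set X} (hA : (acc f A).Finite) {p : X} (hp : p ∉ A) :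
    Ind f (insert p A) ↔ ∀ᶠ m : ℕ in atTop, (cut f A m).encard + 1 ≤ m := by
  have h1 : ∀ᶠ m in atTop, cut f (insert p A) m = insert p (cut f A m) := by
    have h2 : (acc f (insert p A)).Finite := by rwa [acc_insert]
    filter_upwards [cut_compat (subset_insert p A) h2, mem_cut_eventually h2 (mem_insert p A)]
      with m h3 h4
    rw [h3]
    apply Subset.antisymm
    · intro x hx
      rcases hx.1 with h | h
      · exact Or.inl h
      · exact Or.inr ⟨h, hx⟩
    · rintro x (rfl | hx)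
      · exact h4
      · exact hx.2
  have h5 : ∀ m, (insert p (cut f A m)).encard = (cut f A m).encard + 1 := fun m =>
    encard_insert_of_notMem (fun h => hp h.1)
  constructor
  · rintro ⟨_, h2⟩
    filter_upwards [h1, h2] with m h3 h4
    rwa [h3, h5] at h4
  · intro h2
    refine ⟨by rwa [acc_insert], ?_⟩
    filter_upwards [h1, h2] with m h3 h4
    rwa [h3, h5]

theorem ind_insert_iff {A : Set X} {p q : X} (hp : p ∉ A) (hq : q ∉ A)
    (h : Ind f (insert p A)) : Ind f (insert q A) := by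
  have hA : (acc f A).Finite := (h.mono (subset_insert p A)).1
  rw [ind_insert hA hq, ← ind_insert hA hp]
  exact h

variable (f) in
/-- the cross-cut: the maximal independent sets -/
def CC : Set (Set X) := {A | Ind f A ∧ ∀ p ∉ A, ¬ Ind f (insert p A)}

theorem interp_small (hf : Function.Injective f) {x y : Set X} (hxy : x ⊆ y) (hx : Ind f x)
    (hy : ¬ Ind f y) (hys : (acc f y).Finite) : ∃ z ∈ CC f, x ⊆ z ∧ z ⊆ y := by
  by_contra hcon
  have H : ∀ z, x ⊆ z → z ⊆ y → Ind f z → ∀ p ∉ z, Ind f (insert p z) := by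
    intro z h1 h2 h3 p hp
    by_contra h4
    apply hcon
    refine ⟨z, ⟨h3, fun q hq h5 => h4 (ind_insert_iff hq hp h5)⟩, h1, h2⟩
  have hx' := (ind_iff hxy hys).1 hx
  obtain ⟨m0, hm0⟩ := eventually_atTop.1 hx'
  let Z : Set (Set X) := {z | x ⊆ z ∧ z ⊆ y ∧ ∀ m ≥ m0, (z ∩ cut f y m).encard ≤ (m : ℕ∞)}
  obtain ⟨z, hxz, hz⟩ := zorn_subset_nonempty Z (by
    intro c hc hch hne
    refine ⟨⋃₀ c, ⟨?_, ?_, ?_⟩, fun s hs => subset_sUnion_of_mem hs⟩
    · obtain ⟨s, hs⟩ := hne
      exact (hc hs).1.trans (subset_sUnion_of_mem hs)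
    · exact sUnion_subset (fun s hs => (hc hs).2.1)
    · intro m hm
      have h1 : (⋃₀ c ∩ cut f y m).Finite := (cut_finite hf y m).subset inter_subset_right
      obtain ⟨s, hs, hs'⟩ := DirectedOn.exists_mem_subset_of_finite_of_subset_sUnion hne
        hch.directedOn h1 inter_subset_left
      refine le_trans (encard_le_encard ?_) ((hc hs).2.2 m hm)
      exact subset_inter hs' inter_subset_right) x ⟨Subset.rfl, hxy, hm0⟩
  have hzI : Ind f z := (ind_iff hz.prop.2.1 hys).2 (eventually_atTop.2 ⟨m0, hz.prop.2.2⟩)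
  have hinf : (y \ z).Infinite := by
    intro hfin
    have : ∀ s : Set X, s.Finite → s ⊆ y \ z → Ind f (z ∪ s) := by
      intro s hs
      induction s, hs using Set.Finite.induction_on with
      | empty => intro _; simpa using hzI
      | @insert a s ha hs ih =>
        intro h1
        have h2 := ih ((subset_insert a s).trans h1)
        rw [union_insert]
        apply H _ (hz.prop.1.trans subset_union_left) _ h2
        · intro h3
          rcases h3 with h3 | h3
          · exact (h1 (mem_insert a s)).2 h3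
          · exact ha h3
        · exact union_subset hz.prop.2.1 (((subset_insert a s).trans h1).trans sdiff_subset)
    have h3 := this _ hfin Subset.rfl
    rw [union_sdiff_cancel hz.prop.2.1] at h3
    exact hy h3
  have hfreq : ∃ᶠ m : ℕ in atTop, (m : ℕ∞) ≤ (z ∩ cut f y m).encard := by
    rw [frequently_atTop]
    intro M
    obtain ⟨p, hp, hpM⟩ := hinf.exists_notMem_finite (cut_finite hf y M)
    have h1 : insert p z ∉ Z := by
      intro h2
      exact hp.2 (hz.2 h2 (subset_insert p z) (mem_insert p z))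
    have h2 : ∃ m ≥ m0, ¬ (insert p z ∩ cut f y m).encard ≤ (m : ℕ∞) := by
      by_contra h3
      push Not at h3
      exact h1 ⟨hz.prop.1.trans (subset_insert p z), insert_subset hp.1 hz.prop.2.1, h3⟩
    obtain ⟨m, hm, h3⟩ := h2
    have h4 : p ∈ cut f y m := by
      by_contra h5
      rw [insert_inter_of_notMem h5] at h3
      exact h3 (hz.prop.2.2 m hm)
    refine ⟨m, ?_, ?_⟩
    · by_contra h5
      exact hpM (cut_mono hys (not_le.1 h5).le h4)
    · rw [insert_inter_of_mem h4, encard_insert_of_notMem (fun h => hp.2 h.1), not_le] at h3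
      exact Order.le_of_lt_add_one h3
  obtain ⟨p, hp⟩ := hinf.nonempty
  have h1 := H z hz.prop.1 hz.prop.2.1 hzI p hp.2
  rw [ind_insert hzI.1 hp.2] at h1
  have h2 : ∀ᶠ m : ℕ in atTop, ¬ (m : ℕ∞) ≤ (z ∩ cut f y m).encard := by
    filter_upwards [h1, cut_compat hz.prop.2.1 hys] with m h3 h4 h5
    rw [h4] at h3
    have h6 : (z ∩ cut f y m).encard ≠ ⊤ := by
      intro h7
      rw [h7] at h3
      simp at h3
    exact absurd (h3.trans h5) (not_le.2 (ENat.lt_add_one_iff h6 |>.2 le_rfl))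
  exact hfreq h2

theorem exists_big (hf : Function.Injective f) {y : Set X} (hy : ¬ (acc f y).Finite) :
    ∃ t ⊆ y, (acc f t).Finite ∧ ¬ Ind f t := by
  obtain ⟨δ, h1, h2⟩ := first (S := acc f y) hy (acc_bdd y)
  obtain ⟨h3, h4, h5⟩ := first_spec h1 h2
  have step : ∀ m : ℕ, ∃ (k : ℕ) (s : Set X), m ≤ k ∧ s ⊆ y ∧ s.encard = ((k + 1 : ℕ) : ℕ∞) ∧
      (∀ x ∈ s, lad δ m ≤ f x ∧ f x < lad δ k) := by
    intro m
    obtain ⟨β, hβ, h6, h7⟩ := h4 _ (lad_lt h5 m)
    obtain ⟨k, hk⟩ := lad_cofinal h5 h7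
    have h8 : {x | x ∈ y ∧ lad δ m < f x ∧ f x < β}.Infinite := by
      intro hfin
      have hne : {x | x ∈ y ∧ lad δ m < f x ∧ f x < β}.Nonempty := by
        obtain ⟨x, hx, h8, h9⟩ := hβ.2 _ h6
        exact ⟨x, hx, h8, h9⟩
      obtain ⟨x, hx, hmax⟩ := Set.exists_max_image _ f hfin hne
      obtain ⟨x', hx', h9, h10⟩ := hβ.2 _ hx.2.2
      exact absurd (hmax x' ⟨hx', hx.2.1.trans h9, h10⟩) (not_le.2 h9)
    obtain ⟨s, hs, hs'⟩ := h8.exists_subset_ncard_eq (k + 1)
    have hsf : s.Finite := hs'.1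
    refine ⟨k, s, ?_, fun x hx => (hs hx).1, ?_, fun x hx => ⟨(hs hx).2.1.le, (hs hx).2.2.trans hk⟩⟩
    · by_contra h
      have := lad_mono h5 (not_le.1 h).le
      exact absurd (h6.trans hk) (not_lt.2 this)
    · rw [← hs'.2, hsf.cast_ncard_eq]
  choose k s hk hsy hsc hsl using step
  let t : Set X := ⋃ m, s m
  have hsfin : ∀ m, (s m).Finite := fun m => by
    apply Set.finite_of_encard_eq_coe (hsc m)
  have ht : t ⊆ y := iUnion_subset hsy
  have htfin : ∀ α < δ, {x | x ∈ t ∧ f x < α}.Finite := by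
    intro α hα
    obtain ⟨M, hM⟩ := lad_cofinal h5 hα
    refine (Set.Finite.biUnion (Set.finite_lt_nat M) (fun m _ => hsfin m)).subset ?_
    rintro x ⟨hx, hxα⟩
    obtain ⟨m, hm⟩ := mem_iUnion.1 hx
    refine mem_biUnion (x := m) ?_ hm
    show m < M
    by_contra h
    have h6 := lad_mono h5 (not_lt.1 h)
    exact absurd (((hxα.trans hM).trans_le h6).trans_le (hsl m x hm).1) (lt_irrefl _)
  have htacc : acc f t ⊆ {δ} := by
    intro δ' hδ'
    rcases lt_trichotomy δ' δ with h | h | h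
    · exfalso
      have h6 := htfin δ' h
      have hne : {x | x ∈ t ∧ f x < δ'}.Nonempty := by
        obtain ⟨x, hx, _, h8⟩ := hδ'.2 0 (pos_iff_ne_zero.2 hδ'.1)
        exact ⟨x, hx, h8⟩
      obtain ⟨x, hx, hmax⟩ := Set.exists_max_image _ f h6 hne
      obtain ⟨x', hx', h9, h10⟩ := hδ'.2 _ hx.2
      exact absurd (hmax x' ⟨hx', h10⟩) (not_le.2 h9)
    · exact h
    · exfalso
      obtain ⟨x, hx, h6, _⟩ := hδ'.2 δ h
      obtain ⟨m, hm⟩ := mem_iUnion.1 hx
      exact absurd (((hsl m x hm).2.trans (lad_lt h5 _)).trans h6) (lt_irrefl _)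
  refine ⟨t, ht, (finite_singleton δ).subset htacc, ?_⟩
  rintro ⟨_, h6⟩
  obtain ⟨M, hM⟩ := eventually_atTop.1 h6
  have h7 := hM (k M) (hk M)
  have h8 : s M ⊆ cut f t (k M) := by
    intro x hx
    refine ⟨mem_iUnion.2 ⟨M, hx⟩, fun δ' hδ' _ => ?_⟩
    rw [htacc hδ']
    exact (hsl M x hx).2
  have h9 := (encard_le_encard h8).trans h7
  rw [hsc] at h9
  exact absurd (by exact_mod_cast h9 : k M + 1 ≤ k M) (by omega)

theorem interp (hf : Function.Injective f) {x y : Set X} (hxy : x ⊆ y) (hx : Ind f x)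
    (hy : ¬ Ind f y) : ∃ z ∈ CC f, x ⊆ z ∧ z ⊆ y := by
  by_cases hys : (acc f y).Finite
  · exact interp_small hf hxy hx hy hys
  · obtain ⟨t, hty, ht, ht'⟩ := exists_big hf hys
    have h1 : (acc f (x ∪ t)).Finite := by
      refine (hx.1.union ht).subset ?_
      intro δ hδ
      by_contra h2
      rw [mem_union, not_or] at h2
      obtain ⟨h3, h4⟩ := h2
      have h5 : ∃ α < δ, ∀ z ∈ x, ¬ (α < f z ∧ f z < δ) := by
        by_contra h
        push Not at h
        exact h3 ⟨hδ.1, h⟩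
      have h6 : ∃ α < δ, ∀ z ∈ t, ¬ (α < f z ∧ f z < δ) := by
        by_contra h
        push Not at h
        exact h4 ⟨hδ.1, h⟩
      obtain ⟨α, hα, h5⟩ := h5
      obtain ⟨β, hβ, h6⟩ := h6
      obtain ⟨z, hz, h7, h8⟩ := hδ.2 _ (max_lt hα hβ)
      rcases hz with hz | hz
      · exact h5 z hz ⟨(le_max_left _ _).trans_lt h7, h8⟩
      · exact h6 z hz ⟨(le_max_right _ _).trans_lt h7, h8⟩
    obtain ⟨z, hz, h2, h3⟩ := interp_small hf subset_union_left hx
      (fun h => ht' (h.mono subset_union_right)) h1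
    exact ⟨z, hz, h2, h3.trans (union_subset hxy hty)⟩

theorem acc_finite_set {A : Set X} (hA : A.Finite) : acc f A = ∅ := by
  rw [eq_empty_iff_forall_notMem]
  intro δ hδ
  have hne : {x | x ∈ A ∧ f x < δ}.Nonempty := by
    obtain ⟨x, hx, _, h8⟩ := hδ.2 0 (pos_iff_ne_zero.2 hδ.1)
    exact ⟨x, hx, h8⟩
  obtain ⟨x, hx, hmax⟩ := Set.exists_max_image _ f (hA.subset fun _ h => h.1) hne
  obtain ⟨x', hx', h9, h10⟩ := hδ.2 _ hx.2
  exact absurd (hmax x' ⟨hx', h10⟩) (not_le.2 h9)

theorem ind_finite {A : Set X} (hA : A.Finite) : Ind f A := by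
  refine ⟨by rw [acc_finite_set hA]; exact finite_empty, ?_⟩
  filter_upwards [eventually_ge_atTop A.ncard] with m hm
  calc (cut f A m).encard ≤ A.encard := encard_le_encard (cut_subset A m)
    _ = (A.ncard : ℕ∞) := (hA.cast_ncard_eq).symm
    _ ≤ m := by exact_mod_cast hm

theorem exists_inj (X : Type u) [Infinite X] :
    ∃ f : X → Ordinal.{u}, Function.Injective f ∧ ¬ (acc f univ).Finite := by
  obtain ⟨e⟩ : Nonempty (X ≃ X × ℕ) := by
    rw [← Cardinal.eq]
    simp [Cardinal.mk_prod]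
  obtain ⟨g, hg⟩ : ∃ g : X → Ordinal.{u}, Function.Injective g :=
    ⟨fun x => Ordinal.typein (α := X) WellOrderingRel x, Ordinal.typein_injective _⟩
  have hω : (Ordinal.omega0 : Ordinal.{u}) ≠ 0 := Ordinal.omega0_ne_zero
  refine ⟨fun x => Ordinal.omega0 * g (e x).1 + ((e x).2 : Ordinal.{u}), ?_, ?_⟩
  · intro x x' h
    have h1 : g (e x).1 = g (e x').1 := by
      have := congrArg (· / Ordinal.omega0) h
      simpa [Ordinal.mul_add_div _ hω, Ordinal.div_eq_zero_of_lt (Ordinal.natCast_lt_omega0 _)]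
        using this
    have h2 : ((e x).2 : Ordinal.{u}) = (e x').2 := by
      have h3 : Ordinal.omega0 * g (e x).1 + ((e x).2 : Ordinal.{u})
          = Ordinal.omega0 * g (e x').1 + ((e x').2 : Ordinal.{u}) := h
      rw [h1] at h3
      exact add_left_cancel h3
    have h3 : (e x).2 = (e x').2 := by exact_mod_cast h2
    exact e.injective (Prod.ext (hg h1) h3)
  · have h1 : (range fun a : X => Ordinal.omega0 * g a + Ordinal.omega0).Infinite := by
      apply infinite_range_of_injective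
      intro a b h
      apply hg
      have h2 : Ordinal.omega0 * Order.succ (g a) = Ordinal.omega0 * Order.succ (g b) := by
        rw [Ordinal.mul_succ, Ordinal.mul_succ]
        exact h
      have h3 := mul_left_cancel₀ hω h2
      exact Order.succ_injective h3
    refine fun hfin => h1 (hfin.subset ?_)
    rintro _ ⟨a, rfl⟩
    refine ⟨?_, ?_⟩
    · intro h
      exact hω ((Ordinal.add_eq_zero_iff.1 h).2)
    · intro α hα
      obtain ⟨n, hn⟩ : ∃ n : ℕ, α < Ordinal.omega0 * g a + n := by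
        rcases lt_or_ge α (Ordinal.omega0 * g a) with h | h
        · exact ⟨0, by simpa using h⟩
        · obtain ⟨c, rfl⟩ := le_iff_exists_add.1 h
          have hc : c < Ordinal.omega0 := lt_of_add_lt_add_left hα
          obtain ⟨n, rfl⟩ := Ordinal.lt_omega0.1 hc
          exact ⟨n + 1, by
            have : ((n : ℕ) : Ordinal.{u}) < ((n + 1 : ℕ) : Ordinal.{u}) := by exact_mod_cast Nat.lt_succ_self n
            exact (add_lt_add_iff_left _).2 this⟩
      refine ⟨e.symm (a, n), mem_univ _, ?_, ?_⟩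
      · simpa using hn
      · simp only [Equiv.apply_symm_apply]
        exact (add_lt_add_iff_left _).2 (Ordinal.natCast_lt_omega0 n)

end main

/-- For every infinite set `X` the power set of `X`, ordered by inclusion, has a nontrivial cross-cut. -/
theorem result (X : Type u) [Infinite X] : ∃ C : Set (Set X), IsCrossCut C ∧ ¬ IsTrivial C := by
  obtain ⟨f, hf, hinf⟩ := exists_inj X
  have hempty : Ind f (∅ : Set X) := ind_finite finite_empty
  have huniv : ¬ Ind f (univ : Set X) := fun h => hinf h.1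
  have hmax : ∀ {A B : Set X}, A ∈ CC f → A ⊂ B → ¬ Ind f B := by
    intro A B hA hAB hB
    obtain ⟨p, hp, hpA⟩ := exists_of_ssubset hAB
    exact hA.2 p hpA (hB.mono (insert_subset hp hAB.subset))
  have hanti : IsAntichain (· ≤ ·) (CC f) := by
    intro A hA B hB hne hle
    exact hmax hA (lt_of_le_of_ne hle hne) hB.1
  refine ⟨CC f, ⟨⟨hanti, ?_⟩, ?_⟩, ?_⟩
  · intro D hD hCD
    apply Subset.antisymm hCD
    intro A hA
    by_cases hI : Ind f A
    · obtain ⟨z, hz, h1, _⟩ := interp hf (subset_univ A) hI huniv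
      by_cases h : A = z
      · rwa [h]
      · exact absurd h1 (hD hA (hCD hz) h)
    · obtain ⟨z, hz, _, h2⟩ := interp hf (empty_subset A) hempty hI
      by_cases h : z = A
      · rwa [← h]
      · exact absurd h2 (hD (hCD hz) hA h)
  · intro x x' y y' hxx' hx' hy'y hy' hxy
    exact interp hf hxy (hx'.1.mono hxx'.le) (hmax hy' hy'y)
  · obtain ⟨B, hB, _⟩ := interp hf (empty_subset univ) hempty huniv
    have hBinf : B.Infinite := by
      intro hfin
      have : B ≠ univ := by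
        rintro rfl
        exact huniv hB.1
      obtain ⟨p, hp⟩ := (ne_univ_iff_exists_notMem B).1 this
      exact hB.2 p hp (ind_finite (hfin.insert p))
    have hBc : Bᶜ.Infinite := by
      intro hfin
      have : ∀ s : Set X, s.Finite → acc f (B ∪ s) = acc f B := by
        intro s hs
        induction s, hs using Set.Finite.induction_on with
        | empty => simp
        | @insert a s ha hs ih => rw [union_insert, acc_insert, ih]
      have h1 := this _ hfin
      rw [union_compl_self] at h1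
      exact hinf (h1 ▸ hB.1.1)
    rintro ⟨k, h | h⟩
    · have : B ∈ {A : Set X | A.encard = (k : ℕ∞)} := h ▸ hB
      exact hBinf (finite_of_encard_eq_coe this)
    · have : Bᶜ ∈ {A : Set X | A.encard = (k : ℕ∞)} := h ▸ ⟨B, hB, rfl⟩
      exact hBc (finite_of_encard_eq_coe this)

end Pool.Agent.Results.MP_73a625_co.AllInfinite
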